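import Mathlib
import Pool.Agent.MP_4d57dd_an.Main

/-!
# Zeros of the coefficients of `N(t,z) / (Q(t) + z t^r)` off the positive axis

A polynomial `N(t,z)` is an element of `ℝ[X][X]`: the outer variable is `t`, the inner one is `z`.
-/

namespace Pool.Agent.Results.MP_4d57dd_an.BoundedZeros

open Polynomial Pool.Agent.MP_4d57dd_an

/-- `P_m(z)`: the coefficient of `t^m` in the expansion of `N(t,z) / (Q(t) + z t^r)` in powers of
`t`, as a rational function of `z`. -/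
noncomputable def P (Q : ℝ[X]) (r : ℕ) (N : ℝ[X][X]) (m : ℕ) : RatFunc ℝ :=
  PowerSeries.coeff m
    (((N.map (algebraMap ℝ[X] (RatFunc ℝ)) : (RatFunc ℝ)[X]) : PowerSeries (RatFunc ℝ)) *
      ((Q.map (algebraMap ℝ (RatFunc ℝ)) + C RatFunc.X * X ^ r : (RatFunc ℝ)[X]) :
        PowerSeries (RatFunc ℝ))⁻¹)

open Classical in
/-- The number of complex zeros, counted with multiplicity, of the numerator in lowest terms of
`f` that lie outside `(0, ∞)`. -/
noncomputable def zerosOff (f : RatFunc ℝ) : ℕ :=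
  Multiset.card ((f.num.aroots ℂ).filter fun w => ¬ (w.im = 0 ∧ 0 < w.re))

/-- The degree of `N(t,z)` in `z`. -/
noncomputable def degZ (N : ℝ[X][X]) : ℕ := N.support.sup fun i => (N.coeff i).natDegree

lemma pen_map (Q : ℝ[X]) (r : ℕ) : (pen Q (X ^ r)).map (algebraMap ℝ[X] (RatFunc ℝ)) =
    Q.map (algebraMap ℝ (RatFunc ℝ)) + C RatFunc.X * X ^ r := by
  have : (algebraMap ℝ[X] (RatFunc ℝ)).comp C = algebraMap ℝ (RatFunc ℝ) := by
    ext; simp
  simp [pen, Polynomial.map_map, this]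

lemma pen_coeff_zero_ne {Q : ℝ[X]} (h : 0 < Q.eval 0) (r : ℕ) :
    (pen Q (X ^ r)).coeff 0 ≠ 0 := by
  intro h0
  have := pen_coeff Q (X ^ r) 0 0
  rw [pow_zero, mul_one, h0] at this
  have := congrArg (eval 0) this
  rw [← coeff_zero_eq_eval_zero] at h
  simp only [eval_add, eval_mul, eval_X, eval_C, zero_mul, zero_add, eval_zero, pow_zero,
    mul_one] at this
  linarith

lemma P_spec {Q : ℝ[X]} (h : 0 < Q.eval 0) (r : ℕ) (N : ℝ[X][X]) :
    (((pen Q (X ^ r)).map (algebraMap ℝ[X] (RatFunc ℝ)) : (RatFunc ℝ)[X]) :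
      PowerSeries (RatFunc ℝ)) * PowerSeries.mk (P Q r N) =
    (N.map (algebraMap ℝ[X] (RatFunc ℝ)) : (RatFunc ℝ)[X]) := by
  have h1 : PowerSeries.mk (P Q r N) =
      ((N.map (algebraMap ℝ[X] (RatFunc ℝ)) : (RatFunc ℝ)[X]) : PowerSeries (RatFunc ℝ)) *
      (((pen Q (X ^ r)).map (algebraMap ℝ[X] (RatFunc ℝ)) : (RatFunc ℝ)[X]) :
        PowerSeries (RatFunc ℝ))⁻¹ := by
    ext m
    rw [PowerSeries.coeff_mk, pen_map, P]
  rw [h1, mul_left_comm, PowerSeries.mul_inv_cancel, mul_one]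
  rw [Polynomial.constantCoeff_coe, coeff_map]
  exact RatFunc.algebraMap_ne_zero (pen_coeff_zero_ne h r)

lemma bounded {Q : ℝ[X]} (h0 : 0 < Q.eval 0)
    (hQ : ∀ w : ℂ, aeval w Q = 0 → w.im = 0 ∧ 0 < w.re) (hn : 0 < Q.natDegree) (r : ℕ)
    (N : ℝ[X][X]) {d : ℕ} (hd : N.natDegree ≤ d) (m : ℕ) (hP : P Q r N m ≠ 0) :
    zerosOff (P Q r N m) ≤ cst (degZ N) d := by
  classical
  obtain ⟨u, hu⟩ := gam_link _ _ _ (P_spec h0 r N) m
  rw [← map_gam, coeff_map, PowerSeries.coeff_mk] at hu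
  set G := gam (pen Q (X ^ r)) N 0 m with hG
  have hq : (C ((u : ℤ) : ℝ) * (pen Q (X ^ r)).coeff 0 ^ (m + 1) : ℝ[X]) ≠ 0 :=
    mul_ne_zero (C_ne_zero.2 (by exact_mod_cast u.ne_zero))
      (pow_ne_zero _ (pen_coeff_zero_ne h0 r))
  have hu' : algebraMap ℝ[X] (RatFunc ℝ) G = algebraMap ℝ[X] (RatFunc ℝ)
      (C ((u : ℤ) : ℝ) * (pen Q (X ^ r)).coeff 0 ^ (m + 1)) * P Q r N m := by
    rw [hu]; simp [mul_assoc]
  have hG0 : G ≠ 0 := by
    intro h
    rw [h, map_zero] at hu'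
    exact mul_ne_zero (RatFunc.algebraMap_ne_zero hq) hP hu'.symm
  have hdvd : (P Q r N m).num ∣ G := (RatFunc.num_dvd hG0).2 ⟨_, hq, by
    rw [hu', mul_div_cancel_left₀ _ (RatFunc.algebraMap_ne_zero hq)]⟩
  obtain ⟨δ, hδ, hb⟩ := main_bound (fac_of_roots _ Q rfl h0 hQ) hn r N (L := degZ N)
    (fun i => by
      by_cases hi : i ∈ N.support
      · exact Finset.le_sup (f := fun i => (N.coeff i).natDegree) hi
      · rw [notMem_support_iff.1 hi]; simp) hd m hG0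
  refine le_trans (Multiset.card_le_card ?_) hb
  refine le_trans (Multiset.filter_le_filter _ (roots.le_of_dvd (Polynomial.map_ne_zero hG0)
    (Polynomial.map_dvd _ hdvd))) (Multiset.monotone_filter_right _ ?_)
  intro w hw hw'
  exact hw ⟨hw'.1, hδ.trans_le hw'.2⟩

lemma unbounded {Q : ℝ[X]} (h0 : 0 < Q.eval 0) (hn : Q.natDegree = 0) (r : ℕ) (N : ℝ[X][X])
    (hd : N.degree < r) (hN : N ≠ 0) (K : ℕ) :
    ∃ m, P Q r N m ≠ 0 ∧ K ≤ zerosOff (P Q r N m) := by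
  classical
  obtain ⟨q, rfl⟩ : ∃ q, Q = C q := ⟨_, eq_C_of_natDegree_eq_zero hn⟩
  have hq : q ≠ 0 := by rintro rfl; simp at h0
  have hdr : N.natDegree < r := (natDegree_lt_iff_degree_lt hN).2 hd
  have hrec : ∀ m, algebraMap ℝ[X] (RatFunc ℝ) (C q) * P (C q) r N m +
      RatFunc.X * (if r ≤ m then P (C q) r N (m - r) else 0) =
      algebraMap ℝ[X] (RatFunc ℝ) (N.coeff m) := by
    intro m
    have := congrArg (PowerSeries.coeff m) (P_spec h0 r N)
    rw [pen_map, Polynomial.coeff_coe, coeff_map] at this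
    rw [← this]
    simp [add_mul, mul_assoc, PowerSeries.coeff_X_pow_mul']
  have hqq : algebraMap ℝ[X] (RatFunc ℝ) (C q⁻¹) * algebraMap ℝ[X] (RatFunc ℝ) (C q) = 1 := by
    rw [← map_mul, ← C_mul, inv_mul_cancel₀ hq]; simp
  have hP : ∀ k, P (C q) r N (N.natDegree + r * k) = algebraMap ℝ[X] (RatFunc ℝ)
      (X ^ k * (C (q⁻¹ * (-q⁻¹) ^ k) * N.leadingCoeff)) := by
    intro k
    induction k with
    | zero =>
      have := hrec N.natDegree
      rw [if_neg (by omega), mul_zero, add_zero] at this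
      simp only [mul_zero, add_zero, pow_zero, mul_one, one_mul, map_mul, leadingCoeff]
      rw [← this, ← mul_assoc, hqq, one_mul]
    | succ k ih =>
      have := hrec (N.natDegree + r * (k + 1))
      rw [if_pos (by nlinarith), show N.natDegree + r * (k + 1) - r = N.natDegree + r * k by
        rw [mul_add]; omega, ih, coeff_eq_zero_of_natDegree_lt (by nlinarith), map_zero] at this
      simp only [map_mul, map_pow, map_neg, RatFunc.algebraMap_X] at this ⊢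
      linear_combination algebraMap ℝ[X] (RatFunc ℝ) (C q⁻¹) * this -
        P (C q) r N (N.natDegree + r * (k + 1)) * hqq
  have hne : (X ^ K * (C (q⁻¹ * (-q⁻¹) ^ K) * N.leadingCoeff) : ℝ[X]) ≠ 0 :=
    mul_ne_zero (pow_ne_zero _ X_ne_zero) (mul_ne_zero (C_ne_zero.2 (by simp [hq]))
      (leadingCoeff_ne_zero.2 hN))
  refine ⟨N.natDegree + r * K, by rw [hP]; exact RatFunc.algebraMap_ne_zero hne, ?_⟩
  rw [hP, zerosOff, RatFunc.num_algebraMap, aroots_mul hne, Multiset.filter_add,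
    Multiset.card_add, aroots_X_pow, Multiset.filter_nsmul, Multiset.filter_singleton,
    if_pos (by simp)]
  simp

theorem result : ∃ K : ℕ → ℕ → ℕ, ∀ (Q : ℝ[X]) (r : ℕ) (N : ℝ[X][X]),
    0 < Q.eval 0 → (∀ w : ℂ, aeval w Q = 0 → w.im = 0 ∧ 0 < w.re) →
    N.degree < (max Q.natDegree r : ℕ) →
    (0 < Q.natDegree → ∀ m, P Q r N m ≠ 0 →
      zerosOff (P Q r N m) < K (max Q.natDegree r) (degZ N)) ∧
    (Q.natDegree = 0 → N ≠ 0 → ∀ C : ℕ, ∃ m, P Q r N m ≠ 0 ∧ C ≤ zerosOff (P Q r N m)) := by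
  refine ⟨fun d L => cst L d + 1, fun Q r N h0 hQ hN => ⟨fun hn m hP => ?_, fun hn hN0 C => ?_⟩⟩
  · exact Nat.lt_succ_of_le (bounded h0 hQ hn r N (natDegree_le_of_degree_le hN.le) m hP)
  · rw [hn, Nat.zero_max] at hN
    exact unbounded h0 hn r N hN hN0 C

end Pool.Agent.Results.MP_4d57dd_an.BoundedZeros
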